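import Pool.Agent.H71.NB.MassR

/-!
# Primes in arbitrary windows: total mass and real characters

For `u ≤ v ≤ x` the mass (sum of logarithms) of the primes of `(u, v]` is `v - u + o(x)`, and the sum of
`(D / p) log p` is `o(x)` for a non-square `D ≠ 0`, uniformly in `u` and `v`.
-/

set_option autoImplicit false

namespace Pool.Agent.H71.NB

open Finset Filter Pool.Agent.H91.EHA
open Pool.Agent.H37.PPC (psi Ch_psi_abs)

theorem sm1 (C δ : ℝ) (hδ : 0 < δ) : ∀ᶠ x : ℕ in atTop, C * ((x : ℝ) / Real.log x) ≤ δ * x := by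
  have ht : Tendsto (fun x : ℕ => Real.log (x : ℝ)) atTop atTop :=
    Real.tendsto_log_atTop.comp tendsto_natCast_atTop_atTop
  filter_upwards [ht.eventually_ge_atTop (|C| / δ), ht.eventually_gt_atTop 0] with x h1 h2
  have h3 : C ≤ |C| := le_abs_self C
  have h4 : |C| ≤ δ * Real.log (x : ℝ) := by
    rw [div_le_iff₀ hδ] at h1
    linarith
  rw [← mul_div_assoc, div_le_iff₀ h2]
  have hx : (0 : ℝ) ≤ x := Nat.cast_nonneg x
  nlinarith

theorem sm2 (δ : ℝ) (hδ : 0 < δ) : ∀ᶠ x : ℕ in atTop, ∀ v : ℕ, v ≤ x →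
    Chebyshev.psi (v : ℝ) - Chebyshev.theta (v : ℝ) ≤ δ * x := by
  have h0 : ∀ᶠ x : ℝ in atTop, ‖Real.log x‖ ≤ δ / 2 * ‖x ^ (1 / 2 : ℝ)‖ :=
    (isLittleO_log_rpow_atTop (by norm_num : (0 : ℝ) < 1 / 2)).def (by positivity)
  filter_upwards [tendsto_natCast_atTop_atTop.eventually h0, eventually_ge_atTop 1] with x h1 h2 v hv
  have hx1 : (1 : ℝ) ≤ x := by exact_mod_cast h2
  rw [← Real.sqrt_eq_rpow, Real.norm_eq_abs, Real.norm_eq_abs, abs_of_nonneg (Real.sqrt_nonneg _),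
    abs_of_nonneg (Real.log_nonneg hx1)] at h1
  rcases Nat.eq_zero_or_pos v with h3 | h3
  · subst h3
    have e1 : Chebyshev.psi ((0 : ℕ) : ℝ) = 0 := Chebyshev.psi_eq_zero_of_lt_two (by norm_num)
    have e2 : Chebyshev.theta ((0 : ℕ) : ℝ) = 0 := Chebyshev.theta_eq_zero_of_lt_two (by norm_num)
    rw [e1, e2]
    have : 0 ≤ δ * x := by positivity
    linarith
  · have hv1 : (1 : ℝ) ≤ v := by exact_mod_cast h3
    have hvx : (v : ℝ) ≤ x := by exact_mod_cast hv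
    refine (Chebyshev.psi_sub_theta_le hv1).trans ?_
    have h6 : Real.log (v : ℝ) ≤ Real.log (x : ℝ) := Real.log_le_log (by linarith) hvx
    have h7 : Real.sqrt (v : ℝ) ≤ Real.sqrt (x : ℝ) := Real.sqrt_le_sqrt hvx
    have h8 : 0 ≤ Real.log (v : ℝ) := Real.log_nonneg hv1
    have h9 : Real.sqrt (x : ℝ) * Real.sqrt (x : ℝ) = x := Real.mul_self_sqrt (by linarith)
    have h10 : 0 ≤ Real.sqrt (x : ℝ) := Real.sqrt_nonneg _
    calc 2 * Real.sqrt (v : ℝ) * Real.log (v : ℝ)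
        ≤ 2 * Real.sqrt (x : ℝ) * (δ / 2 * Real.sqrt (x : ℝ)) := by
          gcongr
          exact h6.trans h1
      _ = δ * (Real.sqrt (x : ℝ) * Real.sqrt (x : ℝ)) := by ring
      _ = δ * x := by rw [h9]

theorem sum_win (g : ℕ → ℝ) (u v : ℕ) (huv : u ≤ v) :
    ∑ n ∈ Ioc u v, g n = ∑ n ∈ Icc 1 v, g n - ∑ n ∈ Icc 1 u, g n := by
  have h1 : Icc 1 v = Icc 1 u ∪ Ioc u v := by
    ext n; simp only [mem_Icc, mem_union, mem_Ioc]; omega
  have h2 : Disjoint (Icc 1 u) (Ioc u v) := by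
    rw [Finset.disjoint_left]; intro n h3 h4
    have := mem_Icc.1 h3; have := mem_Ioc.1 h4; omega
  rw [h1, Finset.sum_union h2]; ring

/-- real characters -/
theorem win_chi (D : ℤ) (hD0 : D ≠ 0) (hD : ¬ IsSquare D) (ε : ℝ) (hε : 0 < ε) :
    ∀ᶠ x : ℕ in atTop, ∀ u v : ℕ, 2 ≤ u → u ≤ v → v ≤ x →
      |∑ p ∈ (Ioc u v).filter Nat.Prime, (jacobiSym D p : ℝ) * Real.log p| ≤ ε * x := by
  have hb := exists_jac_neg D hD0 hD
  obtain ⟨x0, hx0⟩ := S_bound D hD0 hb
  filter_upwards [sm1 ((4 * D.natAbs : ℕ) : ℝ) (ε / 3) (by positivity),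
    sm2 (ε / 3) (by positivity), eventually_ge_atTop x0] with x h1 h2 h3 u v hu huv hvx
  have b1 := hx0 x h3 v hvx
  have b2 := hx0 x h3 u (huv.trans hvx)
  have hs := sum_win (fun n => Lam n * psi D n) u v huv
  have hd := Lam_prime_diff (psi D) (Ch_psi_abs D) u v
  have hp : ∑ p ∈ (Ioc u v).filter Nat.Prime, psi D p * Real.log p
      = ∑ p ∈ (Ioc u v).filter Nat.Prime, (jacobiSym D p : ℝ) * Real.log p := by
    refine Finset.sum_congr rfl fun p hp => ?_
    obtain ⟨h4, h5⟩ := mem_filter.1 hp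
    have h6 := (mem_Ioc.1 h4).1
    unfold Pool.Agent.H37.PPC.psi
    rw [if_pos (h5.odd_of_ne_two (by omega))]
  rw [hp, hs] at hd
  have b1' := b1.trans h1
  have b2' := b2.trans h1
  have hd' := hd.trans (h2 v hvx)
  rw [abs_le] at b1' b2' hd' ⊢
  constructor <;> linarith

/-- the total mass -/
theorem psi_near (ε : ℝ) (hε : 0 < ε) : ∀ᶠ x : ℕ in atTop, ∀ y : ℕ, y ≤ x →
    |∑ n ∈ Icc 1 y, Lam n - y| ≤ ε * x := by
  obtain ⟨x0, hx0⟩ := psi_ap 0 1
  filter_upwards [sm1 1 ε hε, eventually_ge_atTop x0] with x h1 h3 y hy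
  have h4 := hx0 x h3 y hy 1 le_rfl (by simp) 0 (by simp)
  have h5 : psiA y 1 0 = ∑ n ∈ Icc 1 y, Lam n := by
    unfold psiA
    rw [Finset.filter_true_of_mem fun n _ => Nat.modEq_one]
  rw [h5, Nat.totient_one, pow_one] at h4
  rw [one_mul] at h1
  refine le_trans ?_ h1
  simpa using h4

theorem psi_eq_sum (y : ℕ) : Chebyshev.psi (y : ℝ) = ∑ n ∈ Icc 1 y, Lam n := by
  rw [Chebyshev.psi, Nat.floor_natCast]
  rfl

theorem win_one (ε : ℝ) (hε : 0 < ε) : ∀ᶠ x : ℕ in atTop, ∀ u v : ℕ, u ≤ v → v ≤ x →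
      |∑ p ∈ (Ioc u v).filter Nat.Prime, Real.log p - ((v : ℝ) - u)| ≤ ε * x := by
  filter_upwards [psi_near (ε / 3) (by positivity), sm2 (ε / 3) (by positivity)]
    with x h1 h2 u v huv hvx
  have b1 := h1 v hvx
  have b2 := h1 u (huv.trans hvx)
  have hs := sum_win (fun n => Lam n) u v huv
  have hd := Lam_prime_diff (fun _ => 1) (fun _ => by simp) u v
  simp only [mul_one, one_mul] at hd
  rw [hs] at hd
  have hd' := hd.trans (h2 v hvx)
  rw [abs_le] at b1 b2 hd' ⊢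
  constructor <;> linarith

theorem jac_vals (a : ℤ) (p : ℕ) : (0 : ℝ) ≤ 1 + (jacobiSym a p : ℝ) ∧ (0 : ℝ) ≤ 1 - (jacobiSym a p : ℝ) := by
  rcases jacobiSym.trichotomy a p with h | h | h <;> rw [h] <;> norm_num

/-- classes modulo 4 (`e = 1` or `-1`): total mass -/
theorem class4 (e : ℤ) (he : e = 1 ∨ e = -1) (ε : ℝ) (hε : 0 < ε) :
    ∀ᶠ x : ℕ in atTop, ∀ u v : ℕ, 2 ≤ u → u ≤ v → v ≤ x →
      |2 * ∑ p ∈ (Ioc u v).filter (fun p => p.Prime ∧ jacobiSym (-1) p = e), Real.log p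
        - ((v : ℝ) - u)| ≤ ε * x := by
  have hns : ¬ IsSquare (-1 : ℤ) := by
    rintro ⟨r, hr⟩
    have : 0 ≤ r * r := mul_self_nonneg r
    omega
  filter_upwards [win_chi (-1) (by norm_num) hns (ε / 2) (by positivity),
    win_one (ε / 2) (by positivity)] with x h1 h2 u v hu huv hvx
  have b1 := h1 u v hu huv hvx
  have b2 := h2 u v huv hvx
  have key : 2 * ∑ p ∈ (Ioc u v).filter (fun p => p.Prime ∧ jacobiSym (-1) p = e), Real.log p
      = ∑ p ∈ (Ioc u v).filter Nat.Prime, Real.log p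
        + (e : ℝ) * ∑ p ∈ (Ioc u v).filter Nat.Prime, (jacobiSym (-1) p : ℝ) * Real.log p := by
    rw [← filter_filter, sum_filter, mul_sum, mul_sum, ← sum_add_distrib]
    refine sum_congr rfl fun p hp => ?_
    obtain ⟨h4, h5⟩ := mem_filter.1 hp
    have h6 := (mem_Ioc.1 h4).1
    have hodd : Odd p := h5.odd_of_ne_two (by omega)
    have hj : jacobiSym (-1) p = 1 ∨ jacobiSym (-1) p = -1 := by
      refine jacobiSym.eq_one_or_neg_one ?_
      simp
    rcases he with rfl | rfl <;> rcases hj with h | h <;> rw [h] <;> norm_num <;> ring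
  rw [key]
  rcases he with rfl | rfl
  · rw [abs_le] at b1 b2 ⊢
    push_cast
    constructor <;> linarith
  · rw [abs_le] at b1 b2 ⊢
    push_cast
    constructor <;> linarith

/-- classes modulo 4 (`e = 1` or `-1`): the primes with all symbols equal to one -/
theorem ones4 (e : ℤ) (he : e = 1 ∨ e = -1) (s : ℤ) (T : Finset ℤ)
    (hind : ∀ S ⊆ T, S.Nonempty → ¬ IsSquare (∏ d ∈ S, (s * d)) ∧
      ¬ IsSquare (-∏ d ∈ S, (s * d))) (ε : ℝ) (hε : 0 < ε) :
    ∀ᶠ x : ℕ in atTop, ∀ u v : ℕ, 2 ≤ u → u ≤ v → v ≤ x →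
      2 * 2 ^ T.card * ∑ p ∈ (Ioc u v).filter
        (fun p => p.Prime ∧ jacobiSym (-1) p = e ∧ ∀ d ∈ T, jacobiSym (s * d) p = 1), Real.log p
        ≤ ((v : ℝ) - u) + ε * x := by
  classical
  have hpow : (0 : ℝ) < 2 ^ T.card := by positivity
  set δ : ℝ := ε / (2 * 2 ^ T.card) with hδdef
  have hδ : 0 < δ := by positivity
  have hns : ¬ IsSquare (-1 : ℤ) := by
    rintro ⟨r, hr⟩
    have : 0 ≤ r * r := mul_self_nonneg r
    omega
  have hne0 : ∀ S ∈ T.powerset.erase ∅, (∏ d ∈ S, (s * d)) ≠ 0 := by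
    intro S hS h0
    obtain ⟨h3, h4⟩ := mem_erase.1 hS
    exact (hind S (mem_powerset.1 h4) (nonempty_iff_ne_empty.2 h3)).1 (by rw [h0]; exact ⟨0, by simp⟩)
  have hev1 : ∀ᶠ x : ℕ in atTop, ∀ S ∈ T.powerset.erase ∅, ∀ u v : ℕ, 2 ≤ u → u ≤ v → v ≤ x →
      |∑ p ∈ (Ioc u v).filter Nat.Prime, (jacobiSym (∏ d ∈ S, (s * d)) p : ℝ) * Real.log p|
        ≤ δ * x := by
    rw [Filter.eventually_all_finset]
    intro S hS
    obtain ⟨h3, h4⟩ := mem_erase.1 hS
    exact win_chi _ (hne0 S hS) (hind S (mem_powerset.1 h4) (nonempty_iff_ne_empty.2 h3)).1 δ hδ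
  have hev2 : ∀ᶠ x : ℕ in atTop, ∀ S ∈ T.powerset, ∀ u v : ℕ, 2 ≤ u → u ≤ v → v ≤ x →
      |∑ p ∈ (Ioc u v).filter Nat.Prime, (jacobiSym (-∏ d ∈ S, (s * d)) p : ℝ) * Real.log p|
        ≤ δ * x := by
    rw [Filter.eventually_all_finset]
    intro S hS
    rcases eq_or_ne S ∅ with h | h
    · subst h
      rw [prod_empty]
      exact win_chi (-1) (by norm_num) hns δ hδ
    · exact win_chi _ (neg_ne_zero.2 (hne0 S (mem_erase.2 ⟨h, hS⟩)))
        (hind S (mem_powerset.1 hS) (nonempty_iff_ne_empty.2 h)).2 δ hδ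
  filter_upwards [hev1, hev2, win_one δ hδ] with x h1 h2 h3 u v hu huv hvx
  have e1 : (2 : ℝ) * 2 ^ T.card * ∑ p ∈ (Ioc u v).filter
        (fun p => p.Prime ∧ jacobiSym (-1) p = e ∧ ∀ d ∈ T, jacobiSym (s * d) p = 1), Real.log p
      ≤ ∑ p ∈ (Ioc u v).filter Nat.Prime,
        ((∏ d ∈ T, (1 + (jacobiSym (s * d) p : ℝ))) * (1 + e * (jacobiSym (-1) p : ℝ)))
          * Real.log p := by
    rw [mul_sum]
    calc ∑ p ∈ (Ioc u v).filter
          (fun p => p.Prime ∧ jacobiSym (-1) p = e ∧ ∀ d ∈ T, jacobiSym (s * d) p = 1),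
            (2 : ℝ) * 2 ^ T.card * Real.log p
        = ∑ p ∈ (Ioc u v).filter
          (fun p => p.Prime ∧ jacobiSym (-1) p = e ∧ ∀ d ∈ T, jacobiSym (s * d) p = 1),
            ((∏ d ∈ T, (1 + (jacobiSym (s * d) p : ℝ))) * (1 + e * (jacobiSym (-1) p : ℝ)))
              * Real.log p := by
          refine sum_congr rfl fun p hp => ?_
          obtain ⟨_, h5, h6⟩ := (mem_filter.1 hp).2
          have h7 : ∏ d ∈ T, (1 + (jacobiSym (s * d) p : ℝ)) = 2 ^ T.card := by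
            rw [← Finset.prod_const]
            refine prod_congr rfl fun d hd => ?_
            rw [h6 d hd]; norm_num
          rw [h7, h5]
          rcases he with rfl | rfl <;> push_cast <;> ring
      _ ≤ _ := by
          refine sum_le_sum_of_subset_of_nonneg ?_ fun p _ _ => ?_
          · intro p hp
            rw [mem_filter] at hp ⊢
            exact ⟨hp.1, hp.2.1⟩
          · refine mul_nonneg (mul_nonneg (prod_nonneg fun d _ => (jac_vals _ p).1) ?_)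
              (Real.log_natCast_nonneg p)
            rcases he with rfl | rfl
            · simpa using (jac_vals (-1) p).1
            · have := (jac_vals (-1) p).2
              push_cast
              linarith
  have e2 : ∑ p ∈ (Ioc u v).filter Nat.Prime,
        ((∏ d ∈ T, (1 + (jacobiSym (s * d) p : ℝ))) * (1 + e * (jacobiSym (-1) p : ℝ)))
          * Real.log p
      = ∑ S ∈ T.powerset, (∑ p ∈ (Ioc u v).filter Nat.Prime,
        (jacobiSym (∏ d ∈ S, (s * d)) p : ℝ) * Real.log p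
        + e * ∑ p ∈ (Ioc u v).filter Nat.Prime,
        (jacobiSym (-∏ d ∈ S, (s * d)) p : ℝ) * Real.log p) := by
    rw [sum_add_distrib, ← mul_sum, sum_comm, sum_comm (s := T.powerset), mul_sum,
      ← sum_add_distrib]
    refine sum_congr rfl fun p _ => ?_
    rw [← sum_mul, ← sum_mul, prod_one_add]
    have h8 : ∀ S : Finset ℤ, (jacobiSym (∏ d ∈ S, (s * d)) p : ℝ)
        = ∏ d ∈ S, (jacobiSym (s * d) p : ℝ) := by
      intro S
      rw [jac_prod (fun d => s * d) S p]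
      push_cast
      rfl
    have h9 : ∀ S : Finset ℤ, (jacobiSym (-∏ d ∈ S, (s * d)) p : ℝ)
        = (jacobiSym (-1) p : ℝ) * ∏ d ∈ S, (jacobiSym (s * d) p : ℝ) := by
      intro S
      rw [← h8 S, neg_eq_neg_one_mul, jacobiSym.mul_left]
      push_cast
      rfl
    rw [sum_congr rfl fun S _ => h8 S, sum_congr (s₁ := T.powerset) rfl fun S _ => h9 S,
      ← mul_sum]
    ring
  rw [e2] at e1
  have e3 : ∑ S ∈ T.powerset, (∑ p ∈ (Ioc u v).filter Nat.Prime,
        (jacobiSym (∏ d ∈ S, (s * d)) p : ℝ) * Real.log p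
        + e * ∑ p ∈ (Ioc u v).filter Nat.Prime,
        (jacobiSym (-∏ d ∈ S, (s * d)) p : ℝ) * Real.log p)
      ≤ ((v : ℝ) - u) + ∑ _S ∈ T.powerset, 2 * (δ * x) := by
    rw [← add_sum_erase _ _ (empty_mem_powerset T),
      ← add_sum_erase T.powerset (fun _ => 2 * (δ * (x : ℝ))) (empty_mem_powerset T), ← add_assoc]
    have hE : ∀ S ∈ T.powerset, (e : ℝ) * ∑ p ∈ (Ioc u v).filter Nat.Prime,
        (jacobiSym (-∏ d ∈ S, (s * d)) p : ℝ) * Real.log p ≤ δ * x := by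
      intro S hS
      have b := abs_le.1 (h2 S hS u v hu huv hvx)
      rcases he with rfl | rfl
      · push_cast; linarith [b.2]
      · push_cast; linarith [b.1]
    refine add_le_add ?_ (sum_le_sum fun S hS => ?_)
    · have b3 := (abs_le.1 (h3 u v huv hvx)).2
      have b4 := hE ∅ (empty_mem_powerset T)
      have b5 : ∑ p ∈ (Ioc u v).filter Nat.Prime,
          (jacobiSym (∏ d ∈ (∅ : Finset ℤ), (s * d)) p : ℝ) * Real.log p
          = ∑ p ∈ (Ioc u v).filter Nat.Prime, Real.log p := by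
        refine sum_congr rfl fun p _ => ?_
        rw [prod_empty, jacobiSym.one_left]
        push_cast
        ring
      rw [b5]
      linarith
    · have b6 := (abs_le.1 (h1 S hS u v hu huv hvx)).2
      have b7 := hE S (mem_of_mem_erase hS)
      linarith
  have e4 : ∑ _S ∈ T.powerset, 2 * (δ * (x : ℝ)) = ε * x := by
    rw [sum_const, card_powerset, nsmul_eq_mul, hδdef]
    push_cast
    field_simp
  rw [e4] at e3
  exact e1.trans e3

/-- `J(-1 | p)` and `p mod 4` -/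
theorem jac4_one (p : ℕ) (hp : Odd p) : jacobiSym (-1) p = 1 ↔ p % 4 = 1 := by
  rw [jacobiSym.at_neg_one hp]
  rcases Nat.odd_mod_four_iff.1 (Nat.odd_iff.1 hp) with h | h
  · rw [ZMod.χ₄_nat_one_mod_four h]; simp [h]
  · rw [ZMod.χ₄_nat_three_mod_four h]; simp [h]

theorem jac4_neg (p : ℕ) (hp : Odd p) : jacobiSym (-1) p = -1 ↔ p % 4 = 3 := by
  rw [jacobiSym.at_neg_one hp]
  rcases Nat.odd_mod_four_iff.1 (Nat.odd_iff.1 hp) with h | h
  · rw [ZMod.χ₄_nat_one_mod_four h]; simp [h]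
  · rw [ZMod.χ₄_nat_three_mod_four h]; simp [h]

end Pool.Agent.H71.NB
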