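import Mathlib

/-!
# A non-square integer has Jacobi symbol `-1` at some odd number
-/

set_option autoImplicit false

namespace Pool.Agent.H71.NB

open Nat

/-- `J(m | n) = 1` if `n ≡ 1` modulo `4 m` -/
theorem jac_one {m : ℤ} (hm : m ≠ 0) {n : ℕ} (hn : n ≡ 1 [MOD 4 * m.natAbs]) : jacobiSym m n = 1 := by
  have hodd : Odd n := by
    have h2 : n ≡ 1 [MOD 2] := hn.of_dvd ⟨2 * m.natAbs, by ring⟩
    exact Nat.odd_iff.2 h2
  rw [jacobiSym.mod_right m hodd]
  have h1 : 1 ≤ m.natAbs := Int.natAbs_pos.2 hm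
  have : n % (4 * m.natAbs) = 1 := by
    have h3 : 1 % (4 * m.natAbs) = 1 := Nat.mod_eq_of_lt (by omega)
    have h4 : n % (4 * m.natAbs) = 1 % (4 * m.natAbs) := hn
    rw [h4, h3]
  rw [this, jacobiSym.one_right]

/-- the squarefree case: a prime `n > N` with `J(σ a | n) = -1` -/
theorem exists_prime_jac (a : ℕ) (ha : Squarefree a) (σ : ℤ) (hσ : σ = 1 ∨ σ = -1)
    (h : ¬ (σ = 1 ∧ a = 1)) (N : ℕ) :
    ∃ n : ℕ, N < n ∧ n.Prime ∧ Odd n ∧ jacobiSym (σ * a) n = -1 := by
  have ha0 : a ≠ 0 := ha.ne_zero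
  have hodd_of {n : ℕ} (hn : n.Prime) (hN : 2 < n) : Odd n := hn.odd_of_ne_two (by omega)
  by_cases hex : ∃ q : ℕ, q.Prime ∧ q ≠ 2 ∧ q ∣ a
  · obtain ⟨q, hq, hq2, a', rfl⟩ := hex
    have := Fact.mk hq
    have ha'0 : a' ≠ 0 := by rintro rfl; exact ha0 (mul_zero q)
    have hqa : ¬ q ∣ a' := by
      intro hd
      obtain ⟨t, rfl⟩ := hd
      exact hq.not_isUnit (ha q ⟨t, by ring⟩)
    obtain ⟨u, hu⟩ := FiniteField.exists_nonsquare (F := ZMod q) (by rwa [ZMod.ringChar_zmod_n])
    have hu0 : u ≠ 0 := by rintro rfl; exact hu ⟨0, by simp⟩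
    have hco : Nat.Coprime (4 * a') q := by
      rw [Nat.coprime_comm, hq.coprime_iff_not_dvd]
      intro hd
      rcases hq.dvd_mul.1 hd with h4 | h4
      · have : q ∣ 2 ^ 2 := h4
        exact hq2 ((Nat.prime_dvd_prime_iff_eq hq Nat.prime_two).1 (hq.dvd_of_dvd_pow this))
      · exact hqa h4
    obtain ⟨c, hc1, hc2⟩ := Nat.chineseRemainder hco 1 u.val
    have hcc : Nat.Coprime c (4 * a' * q) := by
      refine Nat.Coprime.mul_right ?_ ?_
      · have := hc1.gcd_eq
        rw [Nat.gcd_one_left] at this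
        exact this
      · have h5 := hc2.gcd_eq
        have h6 : Nat.gcd u.val q = 1 := by
          rw [← Nat.coprime_iff_gcd_eq_one, Nat.coprime_comm, hq.coprime_iff_not_dvd]
          intro hd
          have : u.val = 0 := Nat.eq_zero_of_dvd_of_lt hd (ZMod.val_lt u)
          exact hu0 ((ZMod.val_eq_zero u).1 this)
        rw [h6] at h5
        exact h5
    obtain ⟨n, hn1, hn2, hn3⟩ := Nat.forall_exists_prime_gt_and_modEq (max N 2)
      (q := 4 * a' * q) (a := c)
      (Nat.mul_ne_zero (Nat.mul_ne_zero (by norm_num) ha'0) hq.ne_zero) hcc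
    have hN : N < n := lt_of_le_of_lt (le_max_left _ _) hn1
    have h2n : 2 < n := lt_of_le_of_lt (le_max_right _ _) hn1
    have hodd := hodd_of hn2 h2n
    refine ⟨n, hN, hn2, hodd, ?_⟩
    have e1 : n ≡ 1 [MOD 4 * a'] := (hn3.of_dvd ⟨q, rfl⟩).trans hc1
    have e2 : n ≡ u.val [MOD q] := (hn3.of_dvd ⟨4 * a', by ring⟩).trans hc2
    have e3 : n % 4 = 1 := e1.of_dvd ⟨a', rfl⟩
    have e4 : jacobiSym (σ * a') n = 1 := by
      refine jac_one ?_ ?_
      · rcases hσ with h | h <;> rw [h] <;> simpa using ha'0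
      · have : (σ * (a' : ℤ)).natAbs = a' := by
          rcases hσ with h | h <;> rw [h] <;> simp
        rw [this]; exact e1
    have e5 : jacobiSym (q : ℤ) n = -1 := by
      rw [jacobiSym.quadratic_reciprocity_one_mod_four' (hq.odd_of_ne_two hq2) e3,
        ← jacobiSym.legendreSym.to_jacobiSym, legendreSym.eq_neg_one_iff']
      have : (n : ZMod q) = u := by
        rw [(ZMod.natCast_eq_natCast_iff n u.val q).2 e2, ZMod.natCast_zmod_val]
      rw [this]; exact hu
    have e6 : σ * ((q * a' : ℕ) : ℤ) = (q : ℤ) * (σ * a') := by push_cast; ring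
    rw [e6, jacobiSym.mul_left, e5, e4]; norm_num
  · push Not at hex
    have h12 : a = 1 ∨ a = 2 := by
      by_cases h1 : a = 1
      · exact Or.inl h1
      · right
        obtain ⟨q, hq, hqa⟩ := Nat.exists_prime_and_dvd h1
        have hq2 : q = 2 := by
          by_contra hne
          exact hex q hq hne hqa
        subst hq2
        obtain ⟨t, rfl⟩ := hqa
        by_cases ht : t = 1
        · rw [ht]
        · exfalso
          obtain ⟨r, hr, hrt⟩ := Nat.exists_prime_and_dvd ht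
          have hr2 : r = 2 := by
            by_contra hne
            exact hex r hr hne (dvd_mul_of_dvd_right hrt 2)
          subst hr2
          obtain ⟨s, rfl⟩ := hrt
          exact Nat.prime_two.not_isUnit (ha 2 ⟨s, by ring⟩)
    have key : ∀ r : ℕ, Nat.Coprime r 8 → ∃ n : ℕ, N < n ∧ n.Prime ∧ Odd n ∧ n % 8 = r % 8 := by
      intro r hr
      obtain ⟨n, hn1, hn2, hn3⟩ := Nat.forall_exists_prime_gt_and_modEq (max N 2)
        (q := 8) (a := r) (by norm_num) hr
      exact ⟨n, lt_of_le_of_lt (le_max_left _ _) hn1, hn2,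
        hodd_of hn2 (lt_of_le_of_lt (le_max_right _ _) hn1), hn3⟩
    rcases h12 with rfl | rfl
    · have hσ' : σ = -1 := by
        rcases hσ with h' | h'
        · exact absurd ⟨h', rfl⟩ h
        · exact h'
      obtain ⟨n, h1, h2, h3, h4⟩ := key 3 (by norm_num)
      refine ⟨n, h1, h2, h3, ?_⟩
      rw [hσ']
      simp only [Nat.cast_one, mul_one]
      rw [jacobiSym.at_neg_one h3, ZMod.χ₄_nat_three_mod_four (by omega)]
    · rcases hσ with h' | h'
      · obtain ⟨n, h1, h2, h3, h4⟩ := key 3 (by norm_num)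
        refine ⟨n, h1, h2, h3, ?_⟩
        rw [h']
        simp only [Nat.cast_ofNat, one_mul]
        rw [jacobiSym.at_two h3, ZMod.χ₈_nat_eq_if_mod_eight]
        have : n % 8 = 3 := by omega
        simp [this]
        omega
      · obtain ⟨n, h1, h2, h3, h4⟩ := key 5 (by norm_num)
        refine ⟨n, h1, h2, h3, ?_⟩
        rw [h']
        have e : (-1 : ℤ) * ((2 : ℕ) : ℤ) = -2 := by norm_num
        rw [e, jacobiSym.at_neg_two h3, ZMod.χ₈'_nat_eq_if_mod_eight]
        have : n % 8 = 5 := by omega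
        simp [this]
        omega

theorem exists_jac_neg (D : ℤ) (hD0 : D ≠ 0) (hD : ¬ IsSquare D) :
    ∃ n : ℕ, Odd n ∧ jacobiSym D n = -1 := by
  obtain ⟨a, b, hab, ha⟩ := Nat.sq_mul_squarefree D.natAbs
  have hDn : 0 < D.natAbs := Int.natAbs_pos.2 hD0
  have hb0 : b ≠ 0 := by
    rintro rfl
    rw [zero_pow two_ne_zero, zero_mul] at hab
    omega
  set σ : ℤ := D.sign with hσd
  have hσ : σ = 1 ∨ σ = -1 := by
    rcases lt_trichotomy D 0 with h | h | h
    · right; exact Int.sign_eq_neg_one_of_neg h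
    · exact absurd h hD0
    · left; exact Int.sign_eq_one_of_pos h
  have hDe : D = (b : ℤ) ^ 2 * (σ * a) := by
    have h1 : D = σ * (D.natAbs : ℤ) := (Int.sign_mul_natAbs D).symm
    rw [h1, ← hab]; push_cast
    have : σ.sign = σ := by rcases hσ with h | h <;> rw [h] <;> rfl
    ring
  have hnot : ¬ (σ = 1 ∧ a = 1) := by
    rintro ⟨h1, h2⟩
    apply hD
    refine ⟨b, ?_⟩
    rw [hDe, h1, h2]; push_cast; ring
  obtain ⟨n, hn1, hn2, hn3, hn4⟩ := exists_prime_jac a ha σ hσ hnot b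
  refine ⟨n, hn3, ?_⟩
  have hco : (b : ℤ).gcd n = 1 := by
    rw [Int.gcd_natCast_natCast, Nat.gcd_comm]
    exact (hn2.coprime_iff_not_dvd.2 fun hd =>
      absurd (Nat.le_of_dvd (Nat.pos_of_ne_zero hb0) hd) (by omega))
  rw [hDe, jacobiSym.mul_left, jacobiSym.sq_one' hco, one_mul, hn4]

end Pool.Agent.H71.NB
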