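import Pool.Agent.H71.NB.Jac
import Pool.Agent.H37.PPC.Ch
import Pool.Agent.H91.EHA.SwK1

/-!
# Real characters over the primes of `(2N, 12N)`

For a non-square `D ≠ 0` the sum of `(D / p) log p` over the primes `p` in `(2N, 12N)` is `o(N)`; the sum
of `log p` is at most `(10 + o(1)) N`.
-/

set_option autoImplicit false

namespace Pool.Agent.H71.NB

open Finset Filter Pool.Agent.H91.EHA
open Pool.Agent.H37.PPC (psi Ch_psi_abs Ch_psi_mod Ch_period_sum)

theorem psi_eq_zero (D : ℤ) (a : ℕ) (h : ¬ Nat.Coprime a (4 * D.natAbs)) : psi D a = 0 := by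
  unfold Pool.Agent.H37.PPC.psi
  split_ifs with ho
  · have ha0 : a ≠ 0 := ho.pos.ne'
    have h2 : Nat.Coprime a 4 := by
      have : Nat.Coprime a (2 ^ 2) := (Nat.coprime_two_right.mpr ho).pow_right 2
      simpa using this
    have h3 : D.gcd a ≠ 1 := by
      intro hg
      apply h
      refine Nat.Coprime.mul_right h2 ?_
      have : Nat.gcd D.natAbs a = 1 := by
        rw [Int.gcd_def] at hg
        simpa using hg
      exact Nat.Coprime.symm this
    rw [jacobiSym.eq_zero_iff.2 ⟨ha0, h3⟩]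
    norm_num
  · rfl

theorem S_split (D : ℤ) (hD : D ≠ 0) (y : ℕ) :
    ∑ n ∈ Icc 1 y, Lam n * psi D n =
      ∑ a ∈ range (4 * D.natAbs), psi D a * psiA y (4 * D.natAbs) a := by
  have hc : 0 < 4 * D.natAbs := by have := Int.natAbs_pos.2 hD; omega
  rw [← Finset.sum_fiberwise_of_maps_to (s := Icc 1 y) (t := range (4 * D.natAbs))
    (g := fun n => n % (4 * D.natAbs)) (fun n _ => mem_range.2 (Nat.mod_lt _ hc))]
  refine Finset.sum_congr rfl fun a ha => ?_
  have ha' := mem_range.1 ha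
  unfold psiA
  rw [Finset.mul_sum]
  have hfil : (Icc 1 y).filter (fun n => n % (4 * D.natAbs) = a)
      = (Icc 1 y).filter (fun n => n ≡ a [MOD 4 * D.natAbs]) := by
    refine Finset.filter_congr fun n _ => ?_
    unfold Nat.ModEq
    rw [Nat.mod_eq_of_lt ha']
  rw [hfil]
  refine Finset.sum_congr rfl fun n hn => ?_
  have h1 := (mem_filter.1 hn).2
  have h2 : psi D n = psi D a := by
    rw [Ch_psi_mod D n, Ch_psi_mod D a]
    have : n % (4 * D.natAbs) = a % (4 * D.natAbs) := h1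
    rw [this]
  rw [h2, mul_comm]

theorem S_bound (D : ℤ) (hD : D ≠ 0) (hb : ∃ b : ℕ, Odd b ∧ jacobiSym D b = -1) :
    ∃ x0 : ℕ, ∀ x : ℕ, x0 ≤ x → ∀ y : ℕ, y ≤ x →
      |∑ n ∈ Icc 1 y, Lam n * psi D n| ≤ (4 * D.natAbs : ℕ) * (x / Real.log x) := by
  obtain ⟨x1, hx1⟩ := psi_ap 1 1
  set c : ℕ := 4 * D.natAbs with hcdef
  have hc : 1 ≤ c := by have := Int.natAbs_pos.2 hD; omega
  obtain ⟨x2, hx2⟩ := (Filter.eventually_atTop.1
    ((Real.tendsto_log_atTop.comp tendsto_natCast_atTop_atTop).eventually_ge_atTop (c : ℝ)))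
  refine ⟨max x1 x2, fun x hx y hy => ?_⟩
  have h1 := hx1 x (le_trans (le_max_left _ _) hx) y hy c hc (by
    rw [pow_one]; exact hx2 x (le_trans (le_max_right _ _) hx))
  have hlog : 0 ≤ x / Real.log x := div_nonneg (Nat.cast_nonneg x) (Real.log_natCast_nonneg x)
  rw [S_split D hD y, ← hcdef]
  have h0 : ∑ a ∈ range c, psi D a * (y / (c.totient : ℝ)) = 0 := by
    rw [← Finset.sum_mul, hcdef, Ch_period_sum D hD hb, zero_mul]
  have e : ∑ a ∈ range c, psi D a * psiA y c a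
      = ∑ a ∈ range c, psi D a * (psiA y c a - y / (c.totient : ℝ)) := by
    rw [← sub_zero (∑ a ∈ range c, psi D a * psiA y c a), ← h0, ← Finset.sum_sub_distrib]
    refine Finset.sum_congr rfl fun a _ => ?_
    ring
  rw [e]
  calc |∑ a ∈ range c, psi D a * (psiA y c a - y / (c.totient : ℝ))|
      ≤ ∑ a ∈ range c, |psi D a * (psiA y c a - y / (c.totient : ℝ))| :=
        Finset.abs_sum_le_sum_abs _ _
    _ ≤ ∑ _a ∈ range c, (x / Real.log x : ℝ) := by
        refine Finset.sum_le_sum fun a _ => ?_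
        by_cases hco : Nat.Coprime a c
        · have h2 := h1 a hco
          rw [pow_one] at h2
          rw [abs_mul]
          calc |psi D a| * |psiA y c a - y / (c.totient : ℝ)|
              ≤ 1 * (x / Real.log x) :=
                mul_le_mul (Ch_psi_abs D a) h2 (abs_nonneg _) zero_le_one
            _ = x / Real.log x := one_mul _
        · rw [psi_eq_zero D a hco, zero_mul, abs_zero]
          exact hlog
    _ = (c : ℝ) * (x / Real.log x) := by rw [Finset.sum_const, card_range, nsmul_eq_mul]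

/-- from `Λ` to primes -/
theorem Lam_prime_diff (g : ℕ → ℝ) (hg : ∀ n, |g n| ≤ 1) (u v : ℕ) :
    |∑ n ∈ Ioc u v, Lam n * g n - ∑ p ∈ (Ioc u v).filter Nat.Prime, g p * Real.log p|
      ≤ Chebyshev.psi v - Chebyshev.theta v := by
  have e : ∑ n ∈ Ioc u v, Lam n * g n - ∑ p ∈ (Ioc u v).filter Nat.Prime, g p * Real.log p
      = ∑ n ∈ (Ioc u v).filter (fun n => ¬ n.Prime), Lam n * g n := by
    rw [← Finset.sum_filter_add_sum_filter_not (Ioc u v) Nat.Prime (fun n => Lam n * g n)]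
    have : ∑ n ∈ (Ioc u v).filter Nat.Prime, Lam n * g n
        = ∑ p ∈ (Ioc u v).filter Nat.Prime, g p * Real.log p := by
      refine Finset.sum_congr rfl fun p hp => ?_
      unfold Lam
      rw [ArithmeticFunction.vonMangoldt_apply_prime (mem_filter.1 hp).2, mul_comm]
    rw [this]; ring
  rw [e, Chebyshev.psi_sub_theta_eq_sum_not_prime, Nat.floor_natCast]
  calc |∑ n ∈ (Ioc u v).filter (fun n => ¬ n.Prime), Lam n * g n|
      ≤ ∑ n ∈ (Ioc u v).filter (fun n => ¬ n.Prime), |Lam n * g n| :=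
        Finset.abs_sum_le_sum_abs _ _
    _ ≤ ∑ n ∈ (Ioc u v).filter (fun n => ¬ n.Prime), ArithmeticFunction.vonMangoldt n := by
        refine Finset.sum_le_sum fun n _ => ?_
        have h0 : 0 ≤ Lam n := ArithmeticFunction.vonMangoldt_nonneg
        rw [abs_mul, abs_of_nonneg h0]
        calc Lam n * |g n| ≤ Lam n * 1 := mul_le_mul_of_nonneg_left (hg n) h0
          _ = _ := mul_one _
    _ ≤ ∑ n ∈ (Ioc 0 v).filter (fun n => ¬ n.Prime), ArithmeticFunction.vonMangoldt n := by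
        refine Finset.sum_le_sum_of_subset_of_nonneg ?_ fun n _ _ =>
          ArithmeticFunction.vonMangoldt_nonneg
        refine Finset.filter_subset_filter _ fun n hn => ?_
        have := mem_Ioc.1 hn
        exact mem_Ioc.2 ⟨by omega, this.2⟩

theorem small1 (C δ : ℝ) (hδ : 0 < δ) : ∀ᶠ N : ℕ in atTop,
    C * (((12 * N : ℕ) : ℝ) / Real.log (12 * N : ℕ)) ≤ δ * N := by
  have ht : Tendsto (fun N : ℕ => Real.log ((12 * N : ℕ) : ℝ)) atTop atTop := by
    refine Real.tendsto_log_atTop.comp (tendsto_natCast_atTop_atTop.comp ?_)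
    exact Filter.tendsto_atTop_mono (fun N => by have : (id N : ℕ) = N := rfl; omega) tendsto_id
  filter_upwards [ht.eventually_ge_atTop (12 * |C| / δ), ht.eventually_gt_atTop 0] with N h1 h2
  have h3 : C ≤ |C| := le_abs_self C
  have h4 : 12 * |C| ≤ δ * Real.log ((12 * N : ℕ) : ℝ) := by
    rw [div_le_iff₀ hδ] at h1
    linarith
  rw [← mul_div_assoc, div_le_iff₀ h2]
  have hN : (0 : ℝ) ≤ N := Nat.cast_nonneg N
  push_cast
  push_cast at h4
  nlinarith

theorem small2 (δ : ℝ) (hδ : 0 < δ) : ∀ᶠ N : ℕ in atTop,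
    2 * Real.sqrt ((12 * N : ℕ) : ℝ) * Real.log ((12 * N : ℕ) : ℝ) ≤ δ * N := by
  have h0 : ∀ᶠ x : ℝ in atTop, ‖Real.log x‖ ≤ δ / 24 * ‖x ^ (1 / 2 : ℝ)‖ :=
    (isLittleO_log_rpow_atTop (by norm_num : (0 : ℝ) < 1 / 2)).def (by positivity)
  have ht : Tendsto (fun N : ℕ => ((12 * N : ℕ) : ℝ)) atTop atTop := by
    refine tendsto_natCast_atTop_atTop.comp ?_
    exact Filter.tendsto_atTop_mono (fun N => by have : (id N : ℕ) = N := rfl; omega) tendsto_id
  filter_upwards [ht.eventually h0, ht.eventually_ge_atTop 1] with N h1 h2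
  rw [← Real.sqrt_eq_rpow, Real.norm_eq_abs, Real.norm_eq_abs, abs_of_nonneg (Real.sqrt_nonneg _),
    abs_of_nonneg (Real.log_nonneg h2)] at h1
  have h3 : Real.sqrt ((12 * N : ℕ) : ℝ) * Real.sqrt ((12 * N : ℕ) : ℝ) = ((12 * N : ℕ) : ℝ) :=
    Real.mul_self_sqrt (Nat.cast_nonneg _)
  have h4 : 0 ≤ Real.sqrt ((12 * N : ℕ) : ℝ) := Real.sqrt_nonneg _
  calc 2 * Real.sqrt ((12 * N : ℕ) : ℝ) * Real.log ((12 * N : ℕ) : ℝ)
      ≤ 2 * Real.sqrt ((12 * N : ℕ) : ℝ) * (δ / 24 * Real.sqrt ((12 * N : ℕ) : ℝ)) := by gcongr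
    _ = δ / 12 * (Real.sqrt ((12 * N : ℕ) : ℝ) * Real.sqrt ((12 * N : ℕ) : ℝ)) := by ring
    _ = δ * N := by rw [h3]; push_cast; ring

theorem psi_sub_theta_small (δ : ℝ) (hδ : 0 < δ) : ∀ᶠ N : ℕ in atTop,
    Chebyshev.psi ((12 * N - 1 : ℕ) : ℝ) - Chebyshev.theta ((12 * N - 1 : ℕ) : ℝ) ≤ δ * N := by
  filter_upwards [small2 δ hδ, eventually_ge_atTop 1] with N h1 h2
  have h3 : (1 : ℝ) ≤ ((12 * N - 1 : ℕ) : ℝ) := by exact_mod_cast (by omega : 1 ≤ 12 * N - 1)
  have h4 : ((12 * N - 1 : ℕ) : ℝ) ≤ ((12 * N : ℕ) : ℝ) := by exact_mod_cast Nat.sub_le _ _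
  refine (Chebyshev.psi_sub_theta_le h3).trans (le_trans ?_ h1)
  have h5 : 0 ≤ Real.log ((12 * N - 1 : ℕ) : ℝ) := Real.log_nonneg h3
  have h6 : Real.log ((12 * N - 1 : ℕ) : ℝ) ≤ Real.log ((12 * N : ℕ) : ℝ) :=
    Real.log_le_log (by linarith) h4
  gcongr

/-- the window `(2N, 12N)` -/
theorem sum_window (g : ℕ → ℝ) (N : ℕ) (hN : 1 ≤ N) :
    ∑ n ∈ Ioc (2 * N) (12 * N - 1), g n
      = ∑ n ∈ Icc 1 (12 * N - 1), g n - ∑ n ∈ Icc 1 (2 * N), g n := by
  have h1 : Icc 1 (12 * N - 1) = Icc 1 (2 * N) ∪ Ioc (2 * N) (12 * N - 1) := by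
    ext n; simp only [mem_Icc, mem_union, mem_Ioc]; omega
  have h2 : Disjoint (Icc 1 (2 * N)) (Ioc (2 * N) (12 * N - 1)) := by
    rw [Finset.disjoint_left]; intro n h3 h4
    have := mem_Icc.1 h3; have := mem_Ioc.1 h4; omega
  rw [h1, Finset.sum_union h2]; ring

/-- Real characters over primes. -/
theorem rc_sum (D : ℤ) (hD0 : D ≠ 0) (hD : ¬ IsSquare D) (ε : ℝ) (hε : 0 < ε) :
    ∀ᶠ N : ℕ in atTop,
      |∑ p ∈ (Ioc (2 * N) (12 * N - 1)).filter Nat.Prime, (jacobiSym D p : ℝ) * Real.log p|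
        ≤ ε * N := by
  have hb := exists_jac_neg D hD0 hD
  obtain ⟨x0, hx0⟩ := S_bound D hD0 hb
  filter_upwards [small1 ((4 * D.natAbs : ℕ) : ℝ) (ε / 3) (by positivity),
    psi_sub_theta_small (ε / 3) (by positivity), eventually_ge_atTop (max x0 1)] with N h1 h2 h3
  have hN1 : 1 ≤ N := le_trans (le_max_right _ _) h3
  have hx : x0 ≤ 12 * N := by have := le_trans (le_max_left x0 1) h3; omega
  have b1 := hx0 (12 * N) hx (12 * N - 1) (Nat.sub_le _ _)
  have b2 := hx0 (12 * N) hx (2 * N) (by omega)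
  have hs := sum_window (fun n => Lam n * psi D n) N hN1
  have hd := Lam_prime_diff (psi D) (Ch_psi_abs D) (2 * N) (12 * N - 1)
  have hp : ∑ p ∈ (Ioc (2 * N) (12 * N - 1)).filter Nat.Prime, psi D p * Real.log p
      = ∑ p ∈ (Ioc (2 * N) (12 * N - 1)).filter Nat.Prime, (jacobiSym D p : ℝ) * Real.log p := by
    refine Finset.sum_congr rfl fun p hp => ?_
    obtain ⟨h4, h5⟩ := mem_filter.1 hp
    have h6 := (mem_Ioc.1 h4).1
    unfold Pool.Agent.H37.PPC.psi
    rw [if_pos (h5.odd_of_ne_two (by omega))]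
  rw [hp, hs] at hd
  have b1' := b1.trans h1
  have b2' := b2.trans h1
  have hd' := hd.trans h2
  rw [abs_le] at b1' b2' hd' ⊢
  constructor <;> linarith

/-- The primes in the window. -/
theorem mass_le (ε : ℝ) (hε : 0 < ε) : ∀ᶠ N : ℕ in atTop,
    ∑ p ∈ (Ioc (2 * N) (12 * N - 1)).filter Nat.Prime, Real.log p ≤ (10 + ε) * N := by
  obtain ⟨x0, hx0⟩ := psi_ap 0 1
  filter_upwards [small1 1 (ε / 2) (by positivity), eventually_ge_atTop (max x0 1)] with N h1 h3
  have hN1 : 1 ≤ N := le_trans (le_max_right _ _) h3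
  have hx : x0 ≤ 12 * N := by have := le_trans (le_max_left x0 1) h3; omega
  have key : ∀ y : ℕ, y ≤ 12 * N →
      |∑ n ∈ Icc 1 y, Lam n - y| ≤ ((12 * N : ℕ) : ℝ) / Real.log (12 * N : ℕ) := by
    intro y hy
    have h4 := hx0 (12 * N) hx y hy 1 le_rfl (by simp) 0 (by simp)
    have h5 : psiA y 1 0 = ∑ n ∈ Icc 1 y, Lam n := by
      unfold psiA
      rw [Finset.filter_true_of_mem fun n _ => Nat.modEq_one]
    rw [h5, Nat.totient_one, pow_one] at h4
    simpa using h4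
  have b1 := key (12 * N - 1) (Nat.sub_le _ _)
  have b2 := key (2 * N) (by omega)
  have hs := sum_window (fun n => Lam n) N hN1
  have hle : ∑ p ∈ (Ioc (2 * N) (12 * N - 1)).filter Nat.Prime, Real.log p
      ≤ ∑ n ∈ Ioc (2 * N) (12 * N - 1), Lam n := by
    calc ∑ p ∈ (Ioc (2 * N) (12 * N - 1)).filter Nat.Prime, Real.log p
        = ∑ p ∈ (Ioc (2 * N) (12 * N - 1)).filter Nat.Prime, Lam p := by
          refine Finset.sum_congr rfl fun p hp => ?_
          unfold Lam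
          rw [ArithmeticFunction.vonMangoldt_apply_prime (mem_filter.1 hp).2]
      _ ≤ _ := Finset.sum_le_sum_of_subset_of_nonneg (Finset.filter_subset _ _) fun n _ _ =>
          ArithmeticFunction.vonMangoldt_nonneg
  have h6 : ((12 * N - 1 : ℕ) : ℝ) ≤ 12 * N := by
    have : ((12 * N - 1 : ℕ) : ℝ) ≤ ((12 * N : ℕ) : ℝ) := by exact_mod_cast Nat.sub_le _ _
    push_cast at this
    exact this
  rw [one_mul] at h1
  have b1' := (abs_le.1 (b1.trans h1)).2
  have b2' := (abs_le.1 (b2.trans h1)).1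
  push_cast at b2'
  rw [hs] at hle
  linarith

end Pool.Agent.H71.NB
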