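import Pool.Agent.H71.NB.Rank
import Pool.Agent.H71.NB.RC
import Pool.Agent.H11.NW.Defs

/-!
# Primes that split in none of several fields are rare

If no nonempty product of the numbers `s d`, `d ∈ T`, is a square, the primes `p` of `(2N, 12N)` with
`(s d / p) = 1` for all `d ∈ T` have mass (sum of logarithms) at most `(10 + o(1)) / 2 ^ |T| * N`.
-/

set_option autoImplicit false

namespace Pool.Agent.H71.NB

open Finset Filter

theorem jac_prod (f : ℤ → ℤ) (S : Finset ℤ) (n : ℕ) :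
    jacobiSym (∏ d ∈ S, f d) n = ∏ d ∈ S, jacobiSym (f d) n := by
  classical
  induction S using Finset.induction_on with
  | empty => simp [jacobiSym.one_left]
  | insert a S ha ih => rw [prod_insert ha, prod_insert ha, jacobiSym.mul_left, ih]

theorem prod_ne_zero' (s : ℤ) (hs : s ≠ 0) (T S : Finset ℤ) (hT0 : (0 : ℤ) ∉ T) (hS : S ⊆ T) :
    ∏ d ∈ S, (s * d) ≠ 0 := by
  refine prod_ne_zero_iff.2 fun x hx => mul_ne_zero hs ?_
  rintro rfl
  exact hT0 (hS hx)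

theorem ones_mass (s : ℤ) (hs : s ≠ 0) (T : Finset ℤ) (hT0 : (0 : ℤ) ∉ T) (hI : Ind s T)
    (ε : ℝ) (hε : 0 < ε) : ∀ᶠ N : ℕ in atTop,
      2 ^ T.card * ∑ p ∈ (Ioc (2 * N) (12 * N - 1)).filter
        (fun p => p.Prime ∧ ∀ d ∈ T, jacobiSym (s * d) p = 1), Real.log p ≤ (10 + ε) * N := by
  classical
  have h2 : (0 : ℝ) < 2 ^ T.card := by positivity
  have hev : ∀ᶠ N : ℕ in atTop, ∀ S ∈ T.powerset.erase ∅,
      |∑ p ∈ (Ioc (2 * N) (12 * N - 1)).filter Nat.Prime,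
        (jacobiSym (∏ d ∈ S, (s * d)) p : ℝ) * Real.log p| ≤ ε / 2 / 2 ^ T.card * N := by
    rw [Filter.eventually_all_finset]
    intro S hS
    obtain ⟨h3, h4⟩ := mem_erase.1 hS
    have h5 := mem_powerset.1 h4
    exact rc_sum _ (prod_ne_zero' s hs T S hT0 h5) (hI S h5 (nonempty_iff_ne_empty.2 h3)) _
      (by positivity)
  filter_upwards [hev, mass_le (ε / 2) (by positivity)] with N h3 h4
  have hN : (0 : ℝ) ≤ N := Nat.cast_nonneg N
  have e1 : (2 : ℝ) ^ T.card * ∑ p ∈ (Ioc (2 * N) (12 * N - 1)).filter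
        (fun p => p.Prime ∧ ∀ d ∈ T, jacobiSym (s * d) p = 1), Real.log p
      ≤ ∑ p ∈ (Ioc (2 * N) (12 * N - 1)).filter Nat.Prime,
        (∏ d ∈ T, (1 + (jacobiSym (s * d) p : ℝ))) * Real.log p := by
    rw [mul_sum]
    calc ∑ p ∈ (Ioc (2 * N) (12 * N - 1)).filter
          (fun p => p.Prime ∧ ∀ d ∈ T, jacobiSym (s * d) p = 1), (2 : ℝ) ^ T.card * Real.log p
        = ∑ p ∈ (Ioc (2 * N) (12 * N - 1)).filter
          (fun p => p.Prime ∧ ∀ d ∈ T, jacobiSym (s * d) p = 1),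
            (∏ d ∈ T, (1 + (jacobiSym (s * d) p : ℝ))) * Real.log p := by
          refine sum_congr rfl fun p hp => ?_
          have h5 := (mem_filter.1 hp).2.2
          congr 1
          rw [← Finset.prod_const]
          refine prod_congr rfl fun d hd => ?_
          rw [h5 d hd]; norm_num
      _ ≤ _ := by
          refine sum_le_sum_of_subset_of_nonneg ?_ fun p _ _ => ?_
          · intro p hp
            rw [mem_filter] at hp ⊢
            exact ⟨hp.1, hp.2.1⟩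
          · refine mul_nonneg (prod_nonneg fun d _ => ?_) (Real.log_natCast_nonneg p)
            rcases jacobiSym.trichotomy (s * d) p with h | h | h <;> rw [h] <;> norm_num
  have e2 : ∑ p ∈ (Ioc (2 * N) (12 * N - 1)).filter Nat.Prime,
        (∏ d ∈ T, (1 + (jacobiSym (s * d) p : ℝ))) * Real.log p
      = ∑ S ∈ T.powerset, ∑ p ∈ (Ioc (2 * N) (12 * N - 1)).filter Nat.Prime,
        (jacobiSym (∏ d ∈ S, (s * d)) p : ℝ) * Real.log p := by
    rw [sum_comm]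
    refine sum_congr rfl fun p _ => ?_
    rw [← sum_mul, prod_one_add]
    congr 1
    refine sum_congr rfl fun S _ => ?_
    rw [jac_prod (fun d => s * d) S p]
    push_cast
    rfl
  rw [e2, ← add_sum_erase _ _ (empty_mem_powerset T)] at e1
  have e3 : ∑ p ∈ (Ioc (2 * N) (12 * N - 1)).filter Nat.Prime,
        (jacobiSym (∏ d ∈ (∅ : Finset ℤ), (s * d)) p : ℝ) * Real.log p ≤ (10 + ε / 2) * N := by
    refine le_trans (le_of_eq ?_) h4
    refine sum_congr rfl fun p _ => ?_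
    rw [prod_empty, jacobiSym.one_left]
    push_cast
    ring
  have e4 : ∑ S ∈ T.powerset.erase ∅, ∑ p ∈ (Ioc (2 * N) (12 * N - 1)).filter Nat.Prime,
        (jacobiSym (∏ d ∈ S, (s * d)) p : ℝ) * Real.log p ≤ ε / 2 * N := by
    calc ∑ S ∈ T.powerset.erase ∅, ∑ p ∈ (Ioc (2 * N) (12 * N - 1)).filter Nat.Prime,
          (jacobiSym (∏ d ∈ S, (s * d)) p : ℝ) * Real.log p
        ≤ ∑ _S ∈ T.powerset.erase ∅, ε / 2 / 2 ^ T.card * N :=
          sum_le_sum fun S hS => (le_abs_self _).trans (h3 S hS)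
      _ = ((T.powerset.erase ∅).card : ℝ) * (ε / 2 / 2 ^ T.card * N) := by
          rw [sum_const, nsmul_eq_mul]
      _ ≤ (2 ^ T.card : ℝ) * (ε / 2 / 2 ^ T.card * N) := by
          refine mul_le_mul_of_nonneg_right ?_ (by positivity)
          have : (T.powerset.erase ∅).card ≤ 2 ^ T.card := by
            rw [← card_powerset]; exact card_erase_le
          exact_mod_cast this
      _ = ε / 2 * N := by field_simp
  refine e1.trans ((add_le_add e3 e4).trans (le_of_eq ?_))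
  ring

/-- The main statement: `G` is any property of primes with mass at least `c` (per `2 ^ m`). -/
theorem massr (s : ℤ) (hs : s ≠ 0) (T : Finset ℤ) (hT0 : (0 : ℤ) ∉ T) (hI : Ind s T)
    (G : ℕ → Prop) [DecidablePred G] (c : ℝ)
    (hc : ∃ m0 : ℕ, ∀ m : ℕ, m0 ≤ m → c * 2 ^ m ≤
      ∑ p ∈ (Ioc (2 * 2 ^ m) (12 * 2 ^ m - 1)).filter (fun p => p.Prime ∧ G p), Real.log p)
    (c' : ℝ) (hc' : c' < c - 10 / 2 ^ T.card) :
    ∃ m1 : ℕ, ∀ m : ℕ, m1 ≤ m → c' * 2 ^ m ≤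
      ∑ p ∈ (Ioc (2 * 2 ^ m) (12 * 2 ^ m - 1)).filter
        (fun p => p.Prime ∧ (G p ∧ ∃ d ∈ T, jacobiSym (s * d) p ≠ 1)), Real.log p := by
  classical
  obtain ⟨m0, hm0⟩ := hc
  have h2 : (0 : ℝ) < 2 ^ T.card := by positivity
  set ε : ℝ := 2 ^ T.card * (c - 10 / 2 ^ T.card - c') with hεdef
  have hε : 0 < ε := mul_pos h2 (by linarith)
  obtain ⟨N0, hN0⟩ := Filter.eventually_atTop.1 (ones_mass s hs T hT0 hI ε hε)
  refine ⟨max m0 N0, fun m hm => ?_⟩
  have h3 := hm0 m (le_trans (le_max_left _ _) hm)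
  have h4 := hN0 (2 ^ m) (le_trans (le_trans (le_max_right _ _) hm) Nat.lt_two_pow_self.le)
  have h5 : ∑ p ∈ (Ioc (2 * 2 ^ m) (12 * 2 ^ m - 1)).filter (fun p => p.Prime ∧ G p), Real.log p
      ≤ ∑ p ∈ (Ioc (2 * 2 ^ m) (12 * 2 ^ m - 1)).filter
        (fun p => p.Prime ∧ (G p ∧ ∃ d ∈ T, jacobiSym (s * d) p ≠ 1)), Real.log p
        + ∑ p ∈ (Ioc (2 * 2 ^ m) (12 * 2 ^ m - 1)).filter
        (fun p => p.Prime ∧ ∀ d ∈ T, jacobiSym (s * d) p = 1), Real.log p := by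
    rw [← sum_union_inter]
    refine le_trans (sum_le_sum_of_subset_of_nonneg ?_ fun p _ _ => Real.log_natCast_nonneg p)
      (le_add_of_nonneg_right (sum_nonneg fun p _ => Real.log_natCast_nonneg p))
    intro p hp
    rw [mem_union, mem_filter, mem_filter]
    obtain ⟨h6, h7, h8⟩ := mem_filter.1 hp
    by_cases hall : ∀ d ∈ T, jacobiSym (s * d) p = 1
    · exact Or.inr ⟨h6, h7, hall⟩
    · push Not at hall
      exact Or.inl ⟨h6, h7, h8, hall⟩
  have h6 : ∑ p ∈ (Ioc (2 * 2 ^ m) (12 * 2 ^ m - 1)).filter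
        (fun p => p.Prime ∧ ∀ d ∈ T, jacobiSym (s * d) p = 1), Real.log p
      ≤ (c - c') * 2 ^ m := by
    have e1 : (10 + ε) = 2 ^ T.card * (c - c') := by
      rw [hεdef]; field_simp; ring
    rw [e1] at h4
    push_cast at h4
    rw [mul_assoc] at h4
    exact le_of_mul_le_mul_left h4 h2
  linarith

/-- Sixteen fields: a tenth of `2 ^ m` remains. -/
theorem mass5
    (hnw : ∃ m0 : ℕ, ∀ m : ℕ, m0 ≤ m → (9 / 20 : ℝ) * 2 ^ m ≤
      ∑ p ∈ (Ioc (2 * 2 ^ m) (12 * 2 ^ m - 1)).filter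
        (fun p => p.Prime ∧ ¬ Pool.Agent.H11.NW.Wf p), Real.log p)
    (s : ℤ) (hs : Squarefree s) (B : Finset ℤ) (hB : ∀ d ∈ B, Squarefree d ∧ d ≠ s)
    (hc : 16 ≤ B.card) :
    ∃ T ⊆ B, T.card = 5 ∧ ∃ m1 : ℕ, ∀ m : ℕ, m1 ≤ m → (1 / 10 : ℝ) * 2 ^ m ≤
      ∑ p ∈ (Ioc (2 * 2 ^ m) (12 * 2 ^ m - 1)).filter
        (fun p => p.Prime ∧ (¬ Pool.Agent.H11.NW.Wf p ∧ ∃ d ∈ T, jacobiSym (s * d) p ≠ 1)),
        Real.log p := by
  obtain ⟨T, hTB, hT5, hI⟩ := exists_ind s hs B hB hc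
  refine ⟨T, hTB, hT5, ?_⟩
  have hT0 : (0 : ℤ) ∉ T := fun h => (hB 0 (hTB h)).1.ne_zero rfl
  exact massr s hs.ne_zero T hT0 hI (fun p => ¬ Pool.Agent.H11.NW.Wf p) _ hnw _
    (by rw [hT5]; norm_num)

end Pool.Agent.H71.NB
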