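import Pool.Agent.H73.QX.Asm
import Pool.Agent.H78.NQ.MassU

/-!
# The mass input of the QX assembly for three fields

`MassProp 3` from `massU` (version 2 of the non-Wieferich theorem).
-/

set_option autoImplicit false

namespace Pool.Agent.H71.NB

open Finset Filter
open Pool.Agent.H11.NW (Wf)
open Pool.Agent.H73.QX (mass MassProp Inert Indep)

theorem prod_mod_four (f : ℤ → ℤ) (S : Finset ℤ) (h : ∀ d ∈ S, f d % 4 = 1) :
    (∏ d ∈ S, f d) % 4 = 1 := by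
  classical
  induction S using Finset.induction_on with
  | empty => simp
  | insert a S ha ih =>
    rw [prod_insert ha, Int.mul_emod, h a (mem_insert_self a S),
      ih fun d hd => h d (mem_insert_of_mem hd)]
    norm_num

theorem not_sq_neg (x : ℤ) (h : x % 4 = 1) : ¬ IsSquare (-x) := by
  rintro ⟨r, hr⟩
  have h1 : r % 4 = 0 ∨ r % 4 = 1 ∨ r % 4 = 2 ∨ r % 4 = 3 := by omega
  have h2 : (r * r) % 4 = 0 ∨ (r * r) % 4 = 1 := by
    rcases h1 with h1 | h1 | h1 | h1 <;> rw [Int.mul_emod, h1] <;> norm_num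
  omega

theorem ind_neg (s : ℤ) (T : Finset ℤ) (hI : ∀ S ⊆ T, S.Nonempty → ¬ IsSquare (∏ d ∈ S, (s * d)))
    (h4 : ∀ d ∈ T, (s * d) % 4 = 1) :
    ∀ S ⊆ T, S.Nonempty → ¬ IsSquare (∏ d ∈ S, (s * d)) ∧ ¬ IsSquare (-∏ d ∈ S, (s * d)) :=
  fun S hS hne => ⟨hI S hS hne,
    not_sq_neg _ (prod_mod_four (fun d => s * d) S fun d hd => h4 d (hS hd))⟩

open Classical in
/-- a mass in `(4 N, 32 N]`, `N = 2 ^ m`, gives a mass in one of the windows of `N = 2 ^ (m+1)`,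
`N = 2 ^ (m+2)` -/
theorem mass_two (G : ℕ → Prop) (m : ℕ) :
    ∑ p ∈ (Ioc (4 * 2 ^ m) (32 * 2 ^ m)).filter (fun p => p.Prime ∧ G p), Real.log p
      ≤ mass G (2 ^ (m + 1)) + mass G (2 ^ (m + 2)) := by
  unfold mass
  rw [← sum_union_inter]
  refine le_trans (sum_le_sum_of_subset_of_nonneg ?_ fun p _ _ => Real.log_natCast_nonneg p)
    (le_add_of_nonneg_right (sum_nonneg fun p _ => Real.log_natCast_nonneg p))
  intro p hp
  obtain ⟨h1, h2, h3⟩ := mem_filter.1 hp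
  rw [mem_Ioc] at h1
  have e1 : 2 ^ (m + 1) = 2 * 2 ^ m := by ring
  have e2 : 2 ^ (m + 2) = 4 * 2 ^ m := by ring
  have h0 : 1 ≤ 2 ^ m := Nat.one_le_two_pow
  rw [mem_union, mem_filter, mem_filter, e1, e2, mem_Ioc, mem_Ioc]
  rcases Nat.lt_or_ge (8 * 2 ^ m) p with h | h
  · exact Or.inr ⟨⟨by omega, by omega⟩, h2, h3⟩
  · exact Or.inl ⟨⟨by omega, by omega⟩, h2, h3⟩

open Classical in
theorem freq_of_win (G : ℕ → Prop) (c : ℝ) (hc : 0 < c) (m1 : ℕ)
    (h : ∀ m : ℕ, m1 ≤ m → c * 2 ^ m ≤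
      ∑ p ∈ (Ioc (4 * 2 ^ m) (32 * 2 ^ m)).filter (fun p => p.Prime ∧ G p), Real.log p) :
    ∃ᶠ m : ℕ in atTop, c / 8 * 2 ^ m ≤ mass G (2 ^ m) := by
  refine frequently_atTop.2 fun a => ?_
  have h1 := (h (max a m1) (le_max_right _ _)).trans (mass_two G (max a m1))
  set n := max a m1 with hn
  have hp : (0 : ℝ) < 2 ^ n := by positivity
  have e1 : (2 : ℝ) ^ (n + 1) = 2 * 2 ^ n := by ring
  have e2 : (2 : ℝ) ^ (n + 2) = 4 * 2 ^ n := by ring
  have ha : a ≤ n := le_max_left _ _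
  by_contra hcon
  push Not at hcon
  have h2 := hcon (n + 1) (by omega)
  have h3 := hcon (n + 2) (by omega)
  rw [e1] at h2
  rw [e2] at h3
  have h4 : 0 < c * 2 ^ n := by positivity
  nlinarith

/-- three fields with `2` inert -/
theorem massProp3 : MassProp 3 := by
  classical
  intro T hT hTin hI
  have h4 : ∀ d ∈ T, ((-3 : ℤ) * d) % 4 = 1 := by
    intro d hd
    have := (hTin d hd).2.1
    omega
  obtain ⟨m1, hm1⟩ := Pool.Agent.H78.NQ.massU (-3) T hT (ind_neg (-3) T hI h4)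
  refine ⟨1 / 10 / 8, by norm_num, ?_⟩
  refine freq_of_win (fun p => ¬ Wf p ∧ ∃ d ∈ T, jacobiSym (-3 * d) p ≠ 1) (1 / 10)
    (by norm_num) m1 fun m hm => (hm1 m hm).trans (le_of_eq ?_)
  congr 1
  ext p
  simp only [mem_filter]

end Pool.Agent.H71.NB
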