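import Mathlib

/-!
# Many quadratic fields contain independent ones

For a squarefree integer `s` the squarefree integers `d ≠ s` give pairwise different nontrivial classes
of `s d` modulo squares; among `2 ^ r` of them `r + 1` are independent.
-/

set_option autoImplicit false

namespace Pool.Agent.H71.NB

open Finset

/-- no nonempty product of the numbers `s d`, `d ∈ T`, is a square -/
def Ind (s : ℤ) (T : Finset ℤ) : Prop := ∀ S ⊆ T, S.Nonempty → ¬ IsSquare (∏ d ∈ S, (s * d))

theorem eq_of_isSquare_mul {d e : ℤ} (hd : Squarefree d) (he : Squarefree e)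
    (h : IsSquare (d * e)) : d = e := by
  obtain ⟨k, hk⟩ := h
  have hd0 : d ≠ 0 := hd.ne_zero
  have h1 : d ∣ k ^ 2 := ⟨e, by rw [pow_two, ← hk]⟩
  have h2 : d ∣ k := (hd.dvd_pow_iff_dvd (by norm_num)).1 h1
  obtain ⟨t, rfl⟩ := h2
  have h3 : e = d * (t * t) := by
    apply mul_left_cancel₀ hd0
    rw [hk]; ring
  have h4 : IsUnit t := by
    refine he t ⟨d, ?_⟩
    rw [h3]; ring
  have h5 : t * t = 1 := Int.isUnit_mul_self h4
  rw [h3, h5, mul_one]

theorem isSquare_of_mul_sq {A x : ℤ} (hA : A ≠ 0) (h : IsSquare (A ^ 2 * x)) : IsSquare x := by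
  obtain ⟨k, hk⟩ := h
  have h1 : A ^ 2 ∣ k ^ 2 := ⟨x, by rw [pow_two k, ← hk]⟩
  have h2 : A ∣ k := (Int.pow_dvd_pow_iff (by norm_num)).1 h1
  obtain ⟨t, rfl⟩ := h2
  refine ⟨t, ?_⟩
  have : A ^ 2 * x = A ^ 2 * (t * t) := by rw [hk]; ring
  exact mul_left_cancel₀ (pow_ne_zero 2 hA) this

theorem exists_ind' (s : ℤ) (hs : Squarefree s) (r : ℕ) (B : Finset ℤ)
    (hB : ∀ d ∈ B, Squarefree d ∧ d ≠ s) (hc : 2 ^ r ≤ B.card) :
    ∃ T ⊆ B, T.card = r + 1 ∧ Ind s T := by
  classical
  have hs0 : s ≠ 0 := hs.ne_zero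
  have hne : (B.powerset.filter (Ind s)).Nonempty := by
    refine ⟨∅, ?_⟩
    rw [mem_filter, mem_powerset]
    refine ⟨empty_subset B, fun S hS hS' => ?_⟩
    rw [subset_empty.1 hS] at hS'
    exact absurd hS' (by simp)
  obtain ⟨T, hT, hmax⟩ := exists_max_image (B.powerset.filter (Ind s)) Finset.card hne
  rw [mem_filter, mem_powerset] at hT
  obtain ⟨hTB, hTI⟩ := hT
  rcases Nat.lt_or_ge T.card (r + 1) with hlt | hge
  · exfalso
    have hex : ∀ d ∈ B, ∃ S ⊆ T, S.Nonempty ∧ IsSquare ((∏ x ∈ S, (s * x)) * (s * d)) := by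
      intro d hd
      by_cases hdT : d ∈ T
      · refine ⟨{d}, by simpa using hdT, by simp, ?_⟩
        rw [prod_singleton]
        exact ⟨_, rfl⟩
      · have hnot : ¬ Ind s (insert d T) := by
          intro hI
          have h1 := hmax (insert d T) (by
            rw [mem_filter, mem_powerset]
            exact ⟨insert_subset hd hTB, hI⟩)
          rw [card_insert_of_notMem hdT] at h1
          omega
        unfold Ind at hnot
        push Not at hnot
        obtain ⟨S', hS', hne', hsq⟩ := hnot
        have hdS : d ∈ S' := by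
          by_contra hcon
          refine hTI S' (fun x hx => ?_) hne' hsq
          rcases mem_insert.1 (hS' hx) with h | h
          · exact absurd (h ▸ hx) hcon
          · exact h
        refine ⟨S'.erase d, fun x hx => ?_, ?_, ?_⟩
        · rcases mem_insert.1 (hS' (mem_of_mem_erase hx)) with h | h
          · exact absurd h (ne_of_mem_erase hx)
          · exact h
        · rw [nonempty_iff_ne_empty]
          intro he
          have h2 := mul_prod_erase S' (fun x : ℤ => s * x) hdS
          rw [he, prod_empty, mul_one] at h2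
          rw [← h2] at hsq
          exact (hB d hd).2 (eq_of_isSquare_mul hs (hB d hd).1 hsq).symm
        · rw [prod_erase_mul S' (fun x : ℤ => s * x) hdS]
          exact hsq
    choose! g hg1 hg2 hg3 using hex
    have hinj : Set.InjOn g (B : Set ℤ) := by
      intro d hd e he hde
      have hd' : d ∈ B := hd
      have he' : e ∈ B := he
      have h1 := hg3 d hd'
      have h2 := hg3 e he'
      rw [← hde] at h2
      set A : ℤ := ∏ x ∈ g d, (s * x) with hA
      have hA0 : A ≠ 0 := by
        rw [hA]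
        refine prod_ne_zero_iff.2 fun x hx => ?_
        exact mul_ne_zero hs0 (hB x (hTB (hg1 d hd' hx))).1.ne_zero
      have h3 : IsSquare ((s * A) ^ 2 * (d * e)) := by
        have := h1.mul h2
        have e1 : A * (s * d) * (A * (s * e)) = (s * A) ^ 2 * (d * e) := by ring
        rwa [e1] at this
      exact eq_of_isSquare_mul (hB d hd').1 (hB e he').1
        (isSquare_of_mul_sq (mul_ne_zero hs0 hA0) h3)
    have hcard : B.card ≤ (T.powerset.erase ∅).card := by
      refine card_le_card_of_injOn g (fun d hd => ?_) hinj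
      have hd' : d ∈ B := hd
      simp only [coe_erase, coe_powerset]
      exact ⟨hg1 d hd', (hg2 d hd').ne_empty⟩
    rw [card_erase_of_mem (empty_mem_powerset T), card_powerset] at hcard
    have h1 : 2 ^ T.card ≤ 2 ^ r := Nat.pow_le_pow_right (by norm_num) (by omega)
    have h2 : 0 < 2 ^ T.card := by positivity
    omega
  · obtain ⟨T', hT', hc'⟩ := exists_subset_card_eq hge
    exact ⟨T', hT'.trans hTB, hc', fun S hS => hTI S (hS.trans hT')⟩

theorem exists_ind (s : ℤ) (hs : Squarefree s) (B : Finset ℤ)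
    (hB : ∀ d ∈ B, Squarefree d ∧ d ≠ s) (hc : 16 ≤ B.card) :
    ∃ T ⊆ B, T.card = 5 ∧ ∀ S ⊆ T, S.Nonempty → ¬ IsSquare (∏ d ∈ S, (s * d)) :=
  exists_ind' s hs 4 B hB (by norm_num; exact hc)

end Pool.Agent.H71.NB
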